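import Pool.Agent.MWE.Stmts

/-!
# Squad MWE, row DCM: a word is cut into blocks by its separators
-/

set_option autoImplicit false

namespace Pool.Agent.MWE.H59

open Pool.Agent.Helper14_MV Pool.Agent.Helper2_MV Pool.Agent.MVD Pool.Agent.MWE

theorem bw_congr (R : List ℕ) (B B' : ℕ → List ℕ) (h : ∀ r ∈ R, B r = B' r) :
    Bw R B = Bw R B' := by
  unfold Bw
  induction R with
  | nil => rfl
  | cons a R ih =>
    rw [List.flatMap_cons, List.flatMap_cons, h a List.mem_cons_self,
      ih fun r hr => h r (List.mem_cons_of_mem _ hr)]

theorem dcm : DcmStmt := by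
  intro R
  induction R with
  | nil =>
    intro w _ hw
    rw [List.map_nil, List.filter_eq_nil_iff] at hw
    refine ⟨fun _ => [], w, ?_, ?_, ?_⟩
    · rfl
    · intro r c hc
      exact absurd hc List.not_mem_nil
    · intro c hc h
      exact hw c hc (by simp [h])
  | cons r R ih =>
    intro w hR hw
    rw [List.map_cons, List.filter_eq_cons_iff] at hw
    obtain ⟨u, w', rfl, hu, _, hw'⟩ := hw
    obtain ⟨hr, hR'⟩ := List.nodup_cons.1 hR
    obtain ⟨B, e, rfl, hB, he⟩ := ih w' hR' hw'
    refine ⟨Function.update B r u, e, ?_, ?_, he⟩
    · have h1 : Bw R (Function.update B r u) = Bw R B := by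
        apply bw_congr
        intro s hs
        rw [Function.update_of_ne]
        rintro rfl
        exact hr hs
      have h2 : Bw (r :: R) (Function.update B r u) =
          (Function.update B r u r ++ [3 * r + 2]) ++ Bw R (Function.update B r u) := rfl
      rw [h2, h1, Function.update_self]
      simp
    · intro s
      by_cases hs : s = r
      · subst hs
        rw [Function.update_self]
        intro c hc h
        exact hu c hc (by simp [h])
      · rw [Function.update_of_ne hs]
        exact hB s

end Pool.Agent.MWE.H59
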